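import Pool.Agent.W5h18.IN.CR
import Pool.Agent.W5h18.IN.CL
import Pool.Agent.W5h18.IN.QU
import Pool.Agent.W5h18.IN.NM
import Pool.Agent.W5h18.IN.N2
import Pool.Agent.W5h18.IN.TR
import Pool.Agent.W5h18.IN.PR

/-!
# MP_39b43f_al: finite groups with a centralizer-closed set of involutions

Admissible pairs in normal subgroups, quotients and direct products.
-/

namespace Pool.Agent.Results.MP_39b43f_al.NormalSubgroups

open Pool.Agent.W5h18.IN

/-- **Main theorem.**  `NSI D`: `D` is a normal set of involutions; `Adm D T`: `T` is an admissible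
subset of `D`; `Has G`: `G` has an admissible pair. -/
theorem result :
    -- (1) normal subgroups of odd order
    (∀ (G : Type) [Group G] [Finite G] (N : Subgroup G) [N.Normal], Odd (Nat.card N) →
      (Has G ↔ Has (G ⧸ N) ∨
        ∃ a : G, orderOf a = 2 ∧ a ∉ Subgroup.center G ∧
          (a : G ⧸ N) ∈ Subgroup.center (G ⧸ N))) ∧
    -- (2) normal subgroups
    (∀ (G : Type) [Group G] [Finite G] (M : Subgroup G) [M.Normal], Has G →
      Has M ∨ Has (G ⧸ M) ∨ ∃ a : G, orderOf a = 2 ∧ a ∉ M ∧ a ∉ Subgroup.center G ∧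
        (a : G ⧸ M) ∈ Subgroup.center (G ⧸ M)) ∧
    -- (3) normal `2`-subgroups
    (∀ (G : Type) [Group G] [Finite G] (Q : Subgroup G) [Q.Normal],
      IsPGroup 2 Q → Has G → Has (G ⧸ Q)) ∧
    -- (4) normal subgroups on which the elements of odd order act without fixed points
    (∀ (G : Type) [Group G] [Finite G] (N : Subgroup G) [N.Normal],
      (∀ g : G, Odd (orderOf (g : G ⧸ N)) → g ∉ N → Odd (orderOf g)) →
      (∀ x : G ⧸ N, orderOf x = 2 → ∃ a : G, orderOf a = 2 ∧ (a : G ⧸ N) = x) →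
      Has (G ⧸ N) → Has G) ∧
    -- (5) direct products
    (∀ (G H : Type) [Group G] [Group H] [Finite G] [Finite H],
      (Has (G × H) ↔ Has G ∨ Has H)) := by
  have hCR : S_CR := cr
  have hCL : S_CL := cl hCR
  have hQU : S_QU := qu hCR hCL
  exact ⟨hQU,
    nm hCR hCL,
    n2 hCR hCL,
    tr hCR,
    pr hCR hCL⟩

end Pool.Agent.Results.MP_39b43f_al.NormalSubgroups
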