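import Pool.Agent.W5h18.IN.CR
import Pool.Agent.W5h18.IN.CL
import Pool.Agent.W5h18.IN.ST
import Pool.Agent.W5h18.IN.SO2

/-!
# MP_39b43f_al: finite groups with a centralizer-closed set of involutions

Products of odd order: the structure of the admissible subsets.  A nonempty proper subset `T` of a
normal set `D` of involutions is admissible iff every product of an element of `T` and an
element of `D \ T` has odd order.
-/

namespace Pool.Agent.Results.MP_39b43f_al.OddProducts

open Pool.Agent.W5h18.IN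

/-- **Main theorem.**  `NSI D`: `D` is a normal set of involutions; `Adm D T`: `T` is an admissible
subset of `D`; `Has G`: `G` has an admissible pair. -/
theorem result :
    -- (1) the criterion: all products `ab`, `a ∈ T`, `b ∈ D \ T`, have odd order
    (∀ (G : Type) [Group G] [Finite G] (D T : Set G), NSI D → T ⊆ D → T.Nonempty → T ≠ D →
      (Adm D T ↔ ∀ a ∈ T, ∀ b ∈ D, b ∉ T → Odd (orderOf (a * b)))) ∧
    -- (2) `D` is one conjugacy class of the group it generates
    (∀ (G : Type) [Group G] [Finite G] (D T : Set G), NSI D → Adm D T →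
      ∀ a ∈ D, ∀ b ∈ D, ∃ g ∈ Subgroup.closure D, g⁻¹ * a * g = b) ∧
    -- (3) partition of `D` into an odd number of conjugates
    (∀ (G : Type) [Group G] [Finite G] (D T : Set G), NSI D → Adm D T →
      ∃ T₀ ⊆ T, Adm D T₀ ∧ (∀ g : G, cj g T₀ = T₀ ∨ Disjoint (cj g T₀) T₀) ∧
        (∀ d ∈ D, ∃ g : G, d ∈ cj g T₀) ∧
        (∀ d ∈ D, ∀ g : G, cj d (cj g T₀) = cj g T₀ ↔ d ∈ cj g T₀) ∧
        Odd {S | ∃ g : G, S = cj g T₀}.ncard ∧ 3 ≤ {S | ∃ g : G, S = cj g T₀}.ncard) ∧
    -- (4) the reformulation by an embedded subgroup of odd index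
    (∀ (G : Type) [Group G] [Finite G], (Has G ↔ ∃ (a : G) (H : Subgroup G), Emb a H)) := by
  have hCR : S_CR := cr
  have hCL : S_CL := cl hCR
  have hST : S_ST := st hCR hCL
  have hSO2 : S_SO2 := so2 hCR hCL hST
  exact ⟨hCR,
    hCL,
    hST,
    hSO2⟩

end Pool.Agent.Results.MP_39b43f_al.OddProducts
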