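import Pool.Agent.W5h18.IN.CR
import Pool.Agent.W5h18.IN.CL
import Pool.Agent.W5h18.IN.ST
import Pool.Agent.W5h18.IN.SO1
import Pool.Agent.W5h18.IN.SO2
import Pool.Agent.W5h18.IN.SO3
import Pool.Agent.W5h18.IN.QU
import Pool.Agent.W5h18.IN.NU
import Pool.Agent.W5h18.IN.L1

/-!
# MP_39b43f_al: finite groups with a centralizer-closed set of involutions

The finite solvable groups with an admissible pair.
-/

namespace Pool.Agent.Results.MP_39b43f_al.SolvableGroups

open Pool.Agent.W5h18.IN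

/-- **Main theorem.**  `NSI D`: `D` is a normal set of involutions; `Adm D T`: `T` is an admissible
subset of `D`; `Has G`: `G` has an admissible pair. -/
theorem result :
    -- (1) solvable groups
    (∀ (G : Type) [Group G] [Finite G], Group.IsSolvable G → (Has G ↔ Sol G)) ∧
    -- (2) groups of `2`-length one
    (∀ (G : Type) [Group G] [Finite G] (N M : Subgroup G) [N.Normal] [M.Normal],
      N ≤ M → Odd (Nat.card N) → (∀ x ∈ M, ∃ k : ℕ, x ^ 2 ^ k ∈ N) → Odd M.index →
      (Has G ↔ ∃ a : G, orderOf a = 2 ∧ a ∉ Subgroup.center G ∧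
        (a : G ⧸ N) ∈ Subgroup.center (G ⧸ N))) := by
  have hCR : S_CR := cr
  have hCL : S_CL := cl hCR
  have hSO2 : S_SO2 := so2 hCR hCL (st hCR hCL)
  have hQU : S_QU := qu hCR hCL
  have hNO : S_NO := no hCR
  exact ⟨fun G _ _ hs => ⟨fun h => let ⟨a, H, he⟩ := (hSO2 G).1 h; so3 G hs a H he, so1 hCR G⟩,
    l1 hQU hNO⟩

end Pool.Agent.Results.MP_39b43f_al.SolvableGroups
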