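import Pool.Agent.W5h18.IN.CR
import Pool.Agent.W5h18.IN.CL
import Pool.Agent.W5h18.IN.NU
import Pool.Agent.W5h18.IN.SN1
import Pool.Agent.W5h18.IN.SN2
import Pool.Agent.W5h18.IN.AL
import Pool.Agent.W5h18.IN.DI
import Pool.Agent.W5h18.IN.SL

/-!
# MP_39b43f_al: finite groups with a centralizer-closed set of involutions

Symmetric, alternating and dihedral groups and the groups `SL₂` over the finite fields of
characteristic two.
-/

namespace Pool.Agent.Results.MP_39b43f_al.SymmetricAlternating

open Pool.Agent.W5h18.IN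

/-- **Main theorem.**  `NSI D`: `D` is a normal set of involutions; `Adm D T`: `T` is an admissible
subset of `D`; `Has G`: `G` has an admissible pair. -/
theorem result :
    -- (1) symmetric groups
    (∀ n : ℕ, Has (Equiv.Perm (Fin n)) ↔ n = 3 ∨ n = 4 ∨ n = 5) ∧
    -- (2) alternating groups
    (∀ n : ℕ, Has (alternatingGroup (Fin n)) ↔ n = 5) ∧
    -- (3) dihedral groups
    (∀ n : ℕ, 0 < n → (Has (DihedralGroup n) ↔ ¬ 4 ∣ n ∧ 3 ≤ n)) ∧
    -- (4) `SL₂` over the finite fields of characteristic two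
    (∀ (F : Type) [Field F] [Finite F] [CharP F 2],
      Has (Matrix.SpecialLinearGroup (Fin 2) F)) := by
  have hCR : S_CR := cr
  have hCL : S_CL := cl hCR
  have hNO : S_NO := no hCR
  have hSN1 : S_SN1 := sn1 hCR
  have hSN : S_SN := sn hCR hCL hNO hSN1 sn2
  have hAL : S_AL := al hCR hCL hNO hSN1 sn2
  exact ⟨hSN,
    hAL,
    di hCR,
    sl hCR⟩

end Pool.Agent.Results.MP_39b43f_al.SymmetricAlternating
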